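import Pool.Agent.Helper93.TS.Stmts

/-! Two-scale sums-differences, module CLS: chain rule over the classes of `K`. -/

set_option autoImplicit false

namespace Pool.Agent.Helper93.TS

open Pool.Agent.Helper8.Kak

open scoped Classical in
theorem cls_cnd_sum {Ω : Type} [Fintype Ω] (p : Ω → ℝ) (K : Setoid Ω) (ω : Ω) :
    ∑ ω', (if K ω ω' then p ω' / cls p K ω else 0) = cls p K ω / cls p K ω := by
  have h : cls p K ω / cls p K ω = ∑ ω', (if K ω ω' then p ω' else 0) / cls p K ω := by
    rw [← Finset.sum_div]
    rfl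
  rw [h]
  refine Finset.sum_congr rfl fun ω' _ => ?_
  split_ifs
  · rfl
  · simp

open scoped Classical in
theorem cls_cnd_cls {Ω : Type} [Fintype Ω] (p : Ω → ℝ) (K r : Setoid Ω) (ω ω' : Ω)
    (hK : K ω ω') : cls (cnd p K ω) r ω' = cls p (K ⊓ r) ω' / cls p K ω := by
  have h : cls p (K ⊓ r) ω' / cls p K ω
      = ∑ x, (if (K ⊓ r) ω' x then p x else 0) / cls p K ω := by
    rw [← Finset.sum_div]
    rfl
  rw [h]
  show (∑ x, (if r ω' x then cnd p K ω x else 0)) = _
  refine Finset.sum_congr rfl fun x _ => ?_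
  unfold cnd
  by_cases h1 : r ω' x
  · by_cases h2 : K ω x
    · have h3 : (K ⊓ r) ω' x := ⟨K.trans (K.symm hK) h2, h1⟩
      rw [if_pos h1, if_pos h2, if_pos h3]
    · have h3 : ¬ (K ⊓ r) ω' x := fun hh => h2 (K.trans hK hh.1)
      rw [if_pos h1, if_neg h2, if_neg h3]
      simp
  · have h3 : ¬ (K ⊓ r) ω' x := fun hh => h1 hh.2
    rw [if_neg h1, if_neg h3]
    simp

theorem st_CLS : ST_CLS := by
  classical
  intro Ω _ p hp K
  refine ⟨?_, ?_, ?_⟩
  · intro ω h0
    refine ⟨?_, ?_⟩
    · intro ω'
      unfold cnd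
      split_ifs
      · exact div_nonneg (hp.1 _) (cls_nonneg hp.1 _ _)
      · exact le_rfl
    · have h := cls_cnd_sum p K ω
      rw [div_self (cls_pos hp.1 K h0).ne'] at h
      rw [← h]
      refine Finset.sum_congr rfl fun ω' _ => ?_
      unfold cnd
      by_cases hK : K ω ω'
      · rw [if_pos hK]
      · rw [if_neg hK]
  · intro ω ω' h0
    have hc := cls_pos hp.1 K h0
    unfold cnd
    by_cases hK : K ω ω'
    · rw [if_pos hK]
      constructor
      · intro h1
        refine ⟨hK, ?_⟩
        by_contra h2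
        have h3 : p ω' = 0 := le_antisymm (not_lt.1 h2) (hp.1 _)
        rw [h3, zero_div] at h1
        exact lt_irrefl _ h1
      · rintro ⟨-, h1⟩
        exact div_pos h1 hc
    · rw [if_neg hK]
      exact ⟨fun h1 => absurd h1 (lt_irrefl _), fun h1 => absurd h1.1 hK⟩
  · intro r
    have hF : ∀ ω, p ω * Ent (cnd p K ω) r = ∑ ω', (if K ω' ω then p ω else 0) *
        (p ω' / cls p K ω' * (Real.log (cls p K ω') - Real.log (cls p (K ⊓ r) ω'))) := by
      intro ω
      rcases (hp.1 ω).eq_or_lt with h0 | h0
      · rw [← h0]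
        simp
      · unfold Ent
        rw [← Finset.sum_neg_distrib, Finset.mul_sum]
        refine Finset.sum_congr rfl fun ω' _ => ?_
        by_cases hK : K ω ω'
        · have hK' : K ω' ω := K.symm hK
          have hcc : cls p K ω = cls p K ω' := cls_congr hK
          rw [cls_cnd_cls p K r ω ω' hK, if_pos hK']
          have hcn : cnd p K ω ω' = p ω' / cls p K ω' := by
            unfold cnd
            rw [if_pos hK, hcc]
          rw [hcn, hcc]
          rcases (hp.1 ω').eq_or_lt with h1 | h1
          · rw [← h1]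
            simp
          · rw [Real.log_div (cls_pos hp.1 _ h1).ne' (cls_pos hp.1 _ h1).ne']
            ring
        · have hK' : ¬ K ω' ω := fun hh => hK (K.symm hh)
          have hcn : cnd p K ω ω' = 0 := by
            unfold cnd
            rw [if_neg hK]
          rw [if_neg hK', hcn]
          simp
    simp only [hF]
    rw [Finset.sum_comm]
    unfold Ent
    rw [neg_sub_neg, ← Finset.sum_sub_distrib]
    refine Finset.sum_congr rfl fun ω' _ => ?_
    rw [← Finset.sum_mul]
    have hc : ∑ ω, (if K ω' ω then p ω else 0) = cls p K ω' := by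
      unfold cls
      refine Finset.sum_congr rfl fun ω _ => ?_
      by_cases hK : K ω' ω
      · rw [if_pos hK]
      · rw [if_neg hK]
    rw [hc]
    rcases (hp.1 ω').eq_or_lt with h1 | h1
    · rw [← h1]
      simp
    · have h2 := (cls_pos hp.1 K h1).ne'
      field_simp

end Pool.Agent.Helper93.TS
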