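import Pool.Agent.Helper93.TS.Stmts

/-! Two-scale sums-differences, module TAU: `tau` is close to the true slope. -/

set_option autoImplicit false

namespace Pool.Agent.Helper93.TS

open Pool.Agent.Helper8.Kak

theorem tau_real {N : ℝ} (hN : 1 ≤ N) {ρ β : ℤ} (hρ : ρ ≠ 0) (hβ : |(β : ℝ)| ≤ N) :
    |N / ((⌊N * (ρ : ℝ) / (β : ℝ)⌋ : ℤ) : ℝ) - (β : ℝ) / (ρ : ℝ)| ≤ 2 * (N * N) / (ρ : ℝ) ^ 2 := by
  have hρ1 : (1 : ℝ) ≤ |(ρ : ℝ)| := by
    have : (1 : ℤ) ≤ |ρ| := Int.one_le_abs hρ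
    have h2 : ((1 : ℤ) : ℝ) ≤ ((|ρ| : ℤ) : ℝ) := by exact_mod_cast this
    simpa using h2
  have hρ0 : (0 : ℝ) < |(ρ : ℝ)| := by linarith
  have hρne : (ρ : ℝ) ≠ 0 := abs_pos.1 hρ0
  have hρ2 : (0 : ℝ) < (ρ : ℝ) ^ 2 := by positivity
  have hN0 : 0 < N := by linarith
  have hNN : N ≤ N * N := by nlinarith
  by_cases hb : (β : ℝ) = 0
  · rw [hb]
    simp only [div_zero, Int.floor_zero, Int.cast_zero, zero_div, sub_zero, abs_zero]
    positivity
  set y : ℝ := N * (ρ : ℝ) / (β : ℝ) with hy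
  have hb0 : 0 < |(β : ℝ)| := abs_pos.2 hb
  have hy0 : y ≠ 0 := by
    rw [hy]
    exact div_ne_zero (mul_ne_zero hN0.ne' hρne) hb
  have hslope : (β : ℝ) / (ρ : ℝ) = N / y := by
    rw [hy]
    field_simp
  have hyρ : |(ρ : ℝ)| ≤ |y| := by
    rw [hy, abs_div, abs_mul, abs_of_pos hN0, le_div_iff₀ hb0]
    nlinarith
  have hf1 := Int.floor_le y
  have hf2 := Int.lt_floor_add_one y
  set c : ℝ := ((⌊y⌋ : ℤ) : ℝ) with hc
  have hyc : |y - c| ≤ 1 := by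
    rw [abs_le]
    constructor <;> linarith
  by_cases hy2 : 2 ≤ |y|
  · have hc2 : |y| / 2 ≤ |c| := by
      have h1 : |y| ≤ |y - c| + |c| := by
        have := abs_add_le (y - c) c
        rwa [sub_add_cancel] at this
      linarith
    have hc0 : 0 < |c| := by linarith
    have hcne : c ≠ 0 := abs_pos.1 hc0
    have hyp : 0 < |y| := by linarith
    rw [hslope]
    have e : N / c - N / y = N * (y - c) / (c * y) := by
      field_simp
    rw [e, abs_div, abs_mul, abs_mul, abs_of_pos hN0]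
    rw [div_le_div_iff₀ (by positivity) hρ2]
    have h3 : N * |y - c| ≤ N * N := by
      calc N * |y - c| ≤ N * 1 := mul_le_mul_of_nonneg_left hyc hN0.le
        _ ≤ N * N := by linarith
    have h4 : (ρ : ℝ) ^ 2 ≤ 2 * (|c| * |y|) := by
      rw [← sq_abs]
      nlinarith
    calc N * |y - c| * (ρ : ℝ) ^ 2 ≤ (N * N) * (2 * (|c| * |y|)) :=
          mul_le_mul h3 h4 hρ2.le (by positivity)
      _ = 2 * (N * N) * (|c| * |y|) := by ring
  · push Not at hy2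
    have hρlt : |(ρ : ℝ)| < 2 := by linarith
    have hρint : |ρ| = 1 := by
      have h1 : ((|ρ| : ℤ) : ℝ) < ((2 : ℤ) : ℝ) := by
        push_cast
        exact hρlt
      have h2 : |ρ| < 2 := by exact_mod_cast h1
      have h3 : (1 : ℤ) ≤ |ρ| := Int.one_le_abs hρ
      omega
    have hρe : |(ρ : ℝ)| = 1 := by
      have : ((|ρ| : ℤ) : ℝ) = ((1 : ℤ) : ℝ) := by rw [hρint]
      simpa using this
    have hsq : (ρ : ℝ) ^ 2 = 1 := by rw [← sq_abs, hρe]; norm_num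
    rw [hsq, div_one]
    have h1 : |N / c| ≤ N := by
      rw [abs_div, abs_of_pos hN0]
      by_cases hc0 : ⌊y⌋ = 0
      · rw [hc, hc0]
        simp only [Int.cast_zero, abs_zero, div_zero]
        exact hN0.le
      · have : (1 : ℝ) ≤ |c| := by
          have h5 : (1 : ℤ) ≤ |⌊y⌋| := Int.one_le_abs hc0
          have h6 : ((1 : ℤ) : ℝ) ≤ ((|⌊y⌋| : ℤ) : ℝ) := by exact_mod_cast h5
          simpa [hc] using h6
        exact div_le_self hN0.le this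
    have h2 : |(β : ℝ) / (ρ : ℝ)| ≤ N := by
      rw [abs_div, hρe, div_one]
      exact hβ
    have h3 : |N / c - (β : ℝ) / (ρ : ℝ)| ≤ |N / c| + |(β : ℝ) / (ρ : ℝ)| := by
      have := abs_add_le (N / c) (-((β : ℝ) / (ρ : ℝ)))
      rw [abs_neg] at this
      rwa [sub_eq_add_neg]
    linarith

theorem tau_close {N : ℕ} (t b : Fin (N * N)) (h : Jc b = Jc t) :
    |(((b : ℕ) : ℝ) - ((t : ℕ) : ℝ))| ≤ (N : ℝ) := by
  have hN : 0 < N := by
    rcases Nat.eq_zero_or_pos N with h0 | h0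
    · subst h0
      exact t.elim0
    · exact h0
  have h1 : (b : ℕ) / N = (t : ℕ) / N := congrArg Fin.val h
  have h2 := Nat.div_add_mod (b : ℕ) N
  have h3 := Nat.div_add_mod (t : ℕ) N
  have h4 := Nat.mod_lt (b : ℕ) hN
  have h5 := Nat.mod_lt (t : ℕ) hN
  rw [h1] at h2
  have h6 : (b : ℕ) ≤ (t : ℕ) + N := by omega
  have h7 : (t : ℕ) ≤ (b : ℕ) + N := by omega
  have h8 : ((b : ℕ) : ℝ) ≤ ((t : ℕ) : ℝ) + (N : ℝ) := by exact_mod_cast h6
  have h9 : ((t : ℕ) : ℝ) ≤ ((b : ℕ) : ℝ) + (N : ℝ) := by exact_mod_cast h7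
  rw [abs_le]
  constructor <;> linarith

theorem st_TAU : ST_TAU := by
  intro N t r b hJ hrt
  have hN : 0 < N := by
    rcases Nat.eq_zero_or_pos N with h0 | h0
    · subst h0
      exact t.elim0
    · exact h0
  have hN1 : (1 : ℝ) ≤ (N : ℝ) := by exact_mod_cast hN
  have hρ : (((r : ℕ) : ℤ) - ((t : ℕ) : ℤ)) ≠ 0 := by
    intro h0
    apply hrt
    apply Fin.ext
    omega
  have hcl := tau_close t b hJ
  have key := tau_real (N := (N : ℝ)) hN1 (ρ := ((r : ℕ) : ℤ) - ((t : ℕ) : ℤ))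
    (β := ((b : ℕ) : ℤ) - ((t : ℕ) : ℤ)) hρ (by
      push_cast
      exact hcl)
  push_cast at key
  have hdst : dst r t = |((r : ℕ) : ℝ) - ((t : ℕ) : ℝ)| / ((N : ℝ) * (N : ℝ)) := by
    rw [dst_eq_of_ne hrt]
    unfold ht
    rw [← sub_div, abs_div]
    push_cast
    rw [abs_of_pos (show (0 : ℝ) < (N : ℝ) * (N : ℝ) by positivity)]
  have hρR : ((r : ℕ) : ℝ) - ((t : ℕ) : ℝ) ≠ 0 := by
    have : ((((r : ℕ) : ℤ) - ((t : ℕ) : ℤ) : ℤ) : ℝ) ≠ 0 := by exact_mod_cast hρ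
    push_cast at this
    exact this
  have hR : 2 * (1 / dst r t) ^ 2 * fd N
      = 2 * ((N : ℝ) * (N : ℝ)) / (((r : ℕ) : ℝ) - ((t : ℕ) : ℝ)) ^ 2 := by
    rw [hdst]
    unfold fd
    rw [← sq_abs (((r : ℕ) : ℝ) - ((t : ℕ) : ℝ))]
    have hne : |((r : ℕ) : ℝ) - ((t : ℕ) : ℝ)| ≠ 0 := (abs_pos.2 hρR).ne'
    have hNne : (N : ℝ) ≠ 0 := by positivity
    push_cast
    field_simp
  rw [hR]
  unfold tau cpar
  exact key

end Pool.Agent.Helper93.TS
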